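import Pool.Agent.H853.BoolProd.Base

set_option autoImplicit false

/-!
# The class of Boolean (m, 0)-products need not have a smallest element
-/

open Cardinal Set
open Pool.Agent.H853.BoolProd

namespace Pool.Agent.Results.MP_27bb78_al.NoSmallest

/-- `({i t}, B)` is a Boolean `(m, 0)`-product of the family `{A t}`. -/
structure IsProd (m : Cardinal.{0}) {T : Type} (A : T → Type) [∀ t, BooleanAlgebra (A t)]
    (B : Type) [BooleanAlgebra B] (i : ∀ t, A t → B) : Prop where
  alg : IsMAlg m B
  hom : ∀ t, IsMHom m (i t)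
  inj : ∀ t, Function.Injective (i t)
  indep : ∀ (F : Finset T) (a : ∀ t, A t), (∀ t ∈ F, a t ≠ ⊥) → (F.inf fun t => i t (a t)) ≠ ⊥
  gen : Gen m i

/-- A minimal `(m, 0)`-product: the finite meets of elements of the images are dense. -/
structure IsMinProd (m : Cardinal.{0}) {T : Type} (A : T → Type) [∀ t, BooleanAlgebra (A t)]
    (B : Type) [BooleanAlgebra B] (i : ∀ t, A t → B) : Prop extends IsProd m A B i where
  dense : ∀ b : B, b ≠ ⊥ → ∃ (F : Finset T) (a : ∀ t, A t),
    (F.inf fun t => i t (a t)) ≠ ⊥ ∧ (F.inf fun t => i t (a t)) ≤ b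

/-- The order of the class of products: `({i' t}, B') ≤ ({i t}, B)`. -/
def Le (m : Cardinal.{0}) {T : Type} {A : T → Type} {B B' : Type} [BooleanAlgebra B]
    [BooleanAlgebra B'] (i' : ∀ t, A t → B') (i : ∀ t, A t → B) : Prop :=
  ∃ h : B → B', IsMHom m h ∧ ∀ t a, i' t a = h (i t a)

theorem isProd_B {m : Cardinal.{0}} (hm : ℵ₀ ≤ m) : IsProd m (fun _ : Bool => RO X) B i where
  alg := isMAlg_B m
  hom := i_hom m
  inj := i_injective
  indep F a ha h := i_indep (fill_ne ha false) (fill_ne ha true)
    (le_bot_iff.1 ((le_inf_fill i F a).trans h.le))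
  gen := gen_B hm

theorem isMinProd_M0 {m : Cardinal.{0}} (hm : ℵ₀ ≤ m) :
    IsMinProd m (fun _ : Bool => RO X) M0 j0 where
  alg := isMAlg_M0 m
  hom := j0_hom m
  inj := j0_injective
  indep F a ha h := j0_indep (fill_ne ha false) (fill_ne ha true)
    (le_bot_iff.1 ((le_inf_fill j0 F a).trans h.le))
  gen := gen_M0 hm
  dense w hw := by
    obtain ⟨a, b, ha, hb, h⟩ := j0_dense hw
    have h1 : (Finset.univ.inf fun t => j0 t (if t then b else a)) ≤ j0 false a ⊓ j0 true b :=
      le_inf (Finset.inf_le (Finset.mem_univ false)) (Finset.inf_le (Finset.mem_univ true))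
    refine ⟨Finset.univ, fun t => if t then b else a, ?_, h1.trans h⟩
    have h2 : j0 false a ⊓ j0 true b ≤ (Finset.univ.inf fun t => j0 t (if t then b else a)) := by
      refine Finset.le_inf fun t _ => ?_
      cases t
      · exact inf_le_left
      · exact inf_le_right
    intro h3
    exact j0_indep ha hb (le_bot_iff.1 (h2.trans h3.le))

/-- For every infinite cardinal `m` there is a family of (two) Boolean algebras for which the class of
the Boolean `(m, 0)`-products contains a minimal product, but has no smallest element; in particular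
the minimal product is not the smallest element. -/
theorem result (m : Cardinal.{0}) (hm : ℵ₀ ≤ m) :
    ∃ (T : Type) (A : T → Type) (_ : ∀ t, BooleanAlgebra (A t)), (∀ t, Nontrivial (A t)) ∧
      (∃ (M : Type) (_ : BooleanAlgebra M) (j : ∀ t, A t → M), IsMinProd m A M j) ∧
      ∀ (M : Type) (_ : BooleanAlgebra M) (j : ∀ t, A t → M), IsProd m A M j →
        ∃ (B : Type) (_ : BooleanAlgebra B) (i : ∀ t, A t → B), IsProd m A B i ∧ ¬ Le m j i := by
  refine ⟨Bool, fun _ => RO X, fun _ => inferInstance, fun _ => inferInstance,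
    ⟨M0, inferInstance, j0, isMinProd_M0 hm⟩, ?_⟩
  intro M _ j hj
  by_contra hcon
  push Not at hcon
  obtain ⟨g, hg, hgj⟩ := hcon M0 inferInstance j0 (isMinProd_M0 hm).toIsProd
  obtain ⟨h, hh, hhj⟩ := hcon B inferInstance i (isProd_B hm)
  have hind : ∀ a b : RO X, a ≠ ⊥ → b ≠ ⊥ → j false a ⊓ j true b ≠ ⊥ := by
    intro a b ha hb h0
    refine hj.indep Finset.univ (fun t => if t then b else a) ?_ ?_
    · intro t _
      cases t
      · exact ha
      · exact hb
    · rw [← le_bot_iff, ← h0]
      exact le_inf (Finset.inf_le (Finset.mem_univ false)) (Finset.inf_le (Finset.mem_univ true))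
  refine no_hom hm j hj.hom hind ?_ h hh (fun t a => (hhj t a).symm)
  intro c hc
  obtain ⟨w, rfl⟩ := surj_of_gen hj.gen hg (fun t a => (hgj t a).symm) c
  have hw : w ≠ ⊥ := by
    rintro rfl
    exact hc hg.map_bot
  obtain ⟨a, b, ha, hb, h1⟩ := j0_dense hw
  refine ⟨a, b, hind a b ha hb, ?_⟩
  rw [hgj, hgj, ← hg.map_inf hm]
  exact hg.mono hm h1

end Pool.Agent.Results.MP_27bb78_al.NoSmallest
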